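import Pool.Agent.helper530_ap.Window

/-!
# MP_c5ead3_nt: the values of the least deficient multiplier

The values `a n`, `n ≥ 2`, are exactly `3` and the almost perfect numbers.
-/

namespace Pool.Agent.Results.MP_c5ead3_nt.ValuesOfA

/-- The sum of the positive divisors of `m`. -/
def sigma (m : ℕ) : ℕ := ∑ d ∈ m.divisors, d

/-- The least deficient positive integer `k` for which `k * n` is non-deficient. -/
noncomputable def a (n : ℕ) : ℕ :=
  sInf {k : ℕ | 1 ≤ k ∧ sigma k < 2 * k ∧ 2 * (k * n) ≤ sigma (k * n)}

theorem result :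
    {k : ℕ | ∃ n, 2 ≤ n ∧ a n = k} = {k : ℕ | k = 3 ∨ sigma k + 1 = 2 * k} := by
  have ha : ∀ n, a n = H530AP.a n := fun _ => rfl
  have hs : ∀ n, sigma n = H530AP.sg n := fun _ => rfl
  ext k
  simp only [Set.mem_ofPred_eq, ha, hs]
  constructor
  · rintro ⟨n, hn, rfl⟩
    exact H530AP.a_values hn
  · rintro (rfl | h)
    · refine ⟨2, le_rfl, H530AP.a_eq_of ⟨by norm_num, by decide, by decide⟩ ?_⟩
      intro k' hk'
      by_contra hlt
      have h1 := hk'.1
      have h2 : k' = 1 ∨ k' = 2 := by omega
      rcases h2 with rfl | rfl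
      · exact absurd hk'.2.2 (by decide)
      · exact absurd hk'.2.2 (by decide)
    · have hk0 : k ≠ 0 := by
        rintro rfl
        simp [H530AP.sg] at h
      rcases Nat.lt_or_ge k 2 with hk | hk
      · have h1 : k = 1 := by omega
        subst h1
        refine ⟨6, by norm_num, H530AP.a_eq_of ⟨by norm_num, by decide, by decide⟩ ?_⟩
        intro k' hk'
        exact hk'.1
      · obtain ⟨n, hn, hcop, h1, h2⟩ := H530AP.exists_window k hk
        refine ⟨n, hn, H530AP.a_eq_of ⟨by omega, by omega, ?_⟩ ?_⟩
        · rw [H530AP.sg_coprime hcop]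
          have h3 : H530AP.sg k * H530AP.sg n + H530AP.sg n = 2 * k * H530AP.sg n := by
            have := congrArg (· * H530AP.sg n) h
            simp only [add_mul, one_mul] at this
            exact this
          have h4 : 2 * (k * n) = 2 * k * n := by ring
          omega
        · intro k' hk'
          by_contra hlt
          push Not at hlt
          have h3 : 2 * (k' * n) ≤ H530AP.sg k' * H530AP.sg n :=
            hk'.2.2.trans (H530AP.sg_mul_le k' n)
          have h4 : H530AP.sg k' + 1 ≤ 2 * k' := by
            have := hk'.2.1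
            omega
          -- 2 k' n + S ≤ 2 k' S, while (2k-2) (S - n) < S
          have h5 : 2 * (k' * n) + H530AP.sg n ≤ 2 * k' * H530AP.sg n := by
            have := Nat.mul_le_mul_right (H530AP.sg n) h4
            rw [add_mul, one_mul] at this
            omega
          have h6 : (2 * (k : ℤ) - 2) * H530AP.sg n < (2 * k - 2) * n + H530AP.sg n := by
            have h7 : (((2 * k - 2 : ℕ) * H530AP.sg n : ℕ) : ℤ)
                < (((2 * k - 2 : ℕ) * n + H530AP.sg n : ℕ) : ℤ) := by exact_mod_cast h2
            rw [Nat.cast_mul, Nat.cast_add, Nat.cast_mul, Nat.cast_sub (by omega)] at h7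
            push_cast at h7
            exact h7
          have h8 : 2 * ((k' : ℤ) * n) + H530AP.sg n ≤ 2 * k' * H530AP.sg n := by
            exact_mod_cast h5
          have h9 : (n : ℤ) ≤ H530AP.sg n := by
            exact_mod_cast H530AP.le_sg (by omega : 1 ≤ n)
          have h10 : (k' : ℤ) ≤ k - 1 := by omega
          have h11 : 0 ≤ ((k : ℤ) - 1 - k') * (H530AP.sg n - n) :=
            mul_nonneg (by omega) (by omega)
          nlinarith

end Pool.Agent.Results.MP_c5ead3_nt.ValuesOfA
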